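import Pool.Agent.N570.MS.Fin
import Pool.Agent.N912.MS.Stm2

/-!
# MS16: the inner limits exist for limits in the mean of periodic functions (helper891)
-/

set_option autoImplicit false

namespace Pool.Agent.N891.MS

open Finset Filter MeasureTheory
open Pool.Agent.N912.MS Pool.Agent.N570.MS

/-- periodic modulo `M` -/
def Per (M : ℕ) (G : Gi → ℝ) : Prop := ∀ z w : Gi, G (z + (M : Gi) * w) = G z

lemma per_mod {M : ℕ} {G : Gi → ℝ} (h : Per M G) (v : Gi) :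
    G v = G ⟨v.re % (M : ℤ), v.im % (M : ℤ)⟩ := by
  have e : v = (⟨v.re % (M : ℤ), v.im % (M : ℤ)⟩ : Gi) +
      (M : Gi) * (⟨v.re / (M : ℤ), v.im / (M : ℤ)⟩ : Gi) := by
    apply gext
    · rw [QuadraticAlgebra.re_add, QuadraticAlgebra.re_mul, QuadraticAlgebra.re_natCast,
        QuadraticAlgebra.im_natCast]
      have h1 := Int.emod_add_mul_ediv v.re (M : ℤ)
      dsimp only
      linarith
    · rw [QuadraticAlgebra.im_add, QuadraticAlgebra.im_mul, QuadraticAlgebra.re_natCast,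
        QuadraticAlgebra.im_natCast]
      have h1 := Int.emod_add_mul_ediv v.im (M : ℤ)
      dsimp only
      linarith
  conv_lhs => rw [e]
  exact h _ _

lemma emod_aux {M τ v : ℤ} (hM : 0 < M) (h1 : τ ≤ v) (h2 : v < τ + M) :
    τ + (v % M - τ) % M = v := by
  have h3 : (v % M - τ) % M = (v - τ) % M := by
    rw [Int.sub_emod, Int.emod_emod_of_dvd _ dvd_rfl, ← Int.sub_emod]
  rw [h3, Int.emod_eq_of_lt (by linarith) (by linarith)]
  ring

lemma emod_aux' {M τ u : ℤ} (h1 : 0 ≤ u) (h2 : u < M) :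
    (τ + (u - τ) % M) % M = u := by
  have h3 : (τ + (u - τ) % M) % M = (τ + (u - τ)) % M := by
    rw [Int.add_emod, Int.emod_emod_of_dvd _ dvd_rfl, ← Int.add_emod]
  rw [h3, show τ + (u - τ) = u by ring, Int.emod_eq_of_lt h1 h2]

lemma sum_tile {M : ℕ} (hM : 1 ≤ M) {G : Gi → ℝ} (h : Per M G) (τ : Gi) :
    ∑ u ∈ sq τ M, G u = ∑ u ∈ sq 0 M, G u := by
  have hM' : (0 : ℤ) < M := by exact_mod_cast hM
  refine sum_nbij' (fun v => (⟨v.re % (M : ℤ), v.im % (M : ℤ)⟩ : Gi))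
    (fun u => (⟨τ.re + (u.re - τ.re) % (M : ℤ), τ.im + (u.im - τ.im) % (M : ℤ)⟩ : Gi))
    ?_ ?_ ?_ ?_ ?_
  · intro v _
    rw [mem_sq]
    have h1 := Int.emod_nonneg v.re hM'.ne'
    have h2 := Int.emod_lt_of_pos v.re hM'
    have h3 := Int.emod_nonneg v.im hM'.ne'
    have h4 := Int.emod_lt_of_pos v.im hM'
    simp only [QuadraticAlgebra.re_zero, QuadraticAlgebra.im_zero]
    omega
  · intro u _
    rw [mem_sq]
    have h1 := Int.emod_nonneg (u.re - τ.re) hM'.ne'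
    have h2 := Int.emod_lt_of_pos (u.re - τ.re) hM'
    have h3 := Int.emod_nonneg (u.im - τ.im) hM'.ne'
    have h4 := Int.emod_lt_of_pos (u.im - τ.im) hM'
    dsimp only
    omega
  · intro v hv
    rw [mem_sq] at hv
    apply gext
    · exact emod_aux hM' hv.1.1 hv.1.2
    · exact emod_aux hM' hv.2.1 hv.2.2
  · intro u hu
    rw [mem_sq] at hu
    simp only [QuadraticAlgebra.re_zero, QuadraticAlgebra.im_zero, zero_add] at hu
    apply gext
    · exact emod_aux' hu.1.1 hu.1.2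
    · exact emod_aux' hu.2.1 hu.2.2
  · intro v _
    exact per_mod h v

/-- averages of periodic functions -/
theorem per_avg {U : Set (ℝ × ℝ)} (hU : JM U) {M : ℕ} (hM : 1 ≤ M) {G : Gi → ℝ} (h : Per M G)
    {B : ℝ} (hG : ∀ z, |G z| ≤ B) {ε : ℝ} (hε : 0 < ε) :
    ∃ k₀ : ℝ, ∀ k : ℝ, k₀ ≤ k → 0 < k →
      |avg (dil U k) G - (∑ u ∈ sq 0 M, G u) / (M : ℝ) ^ 2| ≤ ε := by
  classical
  have hB : 0 ≤ B := (abs_nonneg _).trans (hG 0)
  have hM0 : (0 : ℝ) < (M : ℝ) ^ 2 := by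
    have : (0 : ℝ) < M := by exact_mod_cast hM
    positivity
  obtain ⟨c, hc, k₀, hcard⟩ := dil_card hU
  obtain ⟨k₁, htile⟩ := dil_tile hU (L := M) (by omega) (δ := ε * c / (4 * (B + 1)))
    (by positivity)
  set m : ℝ := (∑ u ∈ sq 0 M, G u) / (M : ℝ) ^ 2 with hm
  have hmB : |m| ≤ B := by
    rw [hm, abs_div, abs_of_pos hM0, div_le_iff₀ hM0]
    refine (abs_sum_le_sum_abs _ _).trans ?_
    refine (sum_le_sum fun u _ => hG u).trans ?_
    rw [sum_const, nsmul_eq_mul, card_sq, mul_comm]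
    push_cast
    exact le_rfl
  refine ⟨max (max k₀ k₁) (max 1 (4 * B / (ε * c))), fun k hk hk0 => ?_⟩
  rw [max_le_iff, max_le_iff, max_le_iff] at hk
  obtain ⟨⟨h0, h1⟩, h2, h3⟩ := hk
  obtain ⟨T, hT1, hT2, hT3⟩ := htile k h1 hk0
  let Φ : Finset Gi := (dil_finite hU.bdd hk0).toFinset
  have hΦ : (Φ : Set Gi) = dil U k := Set.Finite.coe_toFinset _
  have hΦ' : ∀ u, u ∈ Φ ↔ u ∈ dil U k := fun u => by rw [← mem_coe, hΦ]
  have hcΦ := hcard k h0 hk0 Φ hΦ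
  let V : Finset Gi := T.biUnion fun τ => sq τ M
  have hV : ∑ u ∈ V, (G u - m) = 0 := by
    change ∑ u ∈ T.biUnion (fun τ => sq τ M), (G u - m) = 0
    rw [sum_biUnion hT1]
    apply sum_eq_zero
    intro τ _
    rw [sum_sub_distrib, sum_tile hM h, sum_const, nsmul_eq_mul, card_sq, hm]
    push_cast
    rw [mul_div_cancel₀ _ hM0.ne', sub_self]
  have h2' : ∀ W : Finset Gi, |∑ u ∈ W, (G u - m)| ≤ 2 * B * W.card := by
    intro W
    refine (abs_sum_le_sum_abs _ _).trans ?_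
    refine (sum_le_sum (g := fun _ => 2 * B) fun u _ => ?_).trans ?_
    · have e1 := abs_sub (G u) m
      have e2 := hG u
      linarith
    · rw [sum_const, nsmul_eq_mul, mul_comm]
  have h4 : ((Φ \ V).card : ℝ) ≤ ε * c / (4 * (B + 1)) * k ^ 2 := by
    apply hT3
    intro u hu
    rw [Finset.mem_sdiff] at hu
    refine ⟨(hΦ' u).1 hu.1, fun τ hτ hu' => hu.2 ?_⟩
    exact mem_biUnion.2 ⟨τ, hτ, hu'⟩
  have h5 : ((V \ Φ).card : ℝ) ≤ 1 := by
    have h6 : V \ Φ ⊆ {0} := by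
      intro u hu
      rw [Finset.mem_sdiff] at hu
      obtain ⟨τ, hτ, hu'⟩ := mem_biUnion.1 hu.1
      rw [mem_singleton]
      rcases hT2 τ hτ u hu' with h7 | h7
      · exact absurd ((hΦ' u).2 h7) hu.2
      · exact h7
    have h7 := card_le_card h6
    rw [card_singleton] at h7
    exact_mod_cast h7
  have hk2 : 0 < c * k ^ 2 := by positivity
  have hcard0 : (0 : ℝ) < Φ.card := lt_of_lt_of_le hk2 hcΦ
  have hsum : |∑ u ∈ Φ, (G u - m)| ≤ ε * Φ.card := by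
    have e1 := sum_sdiff_sub_sum_sdiff (s₁ := V) (s₂ := Φ) (f := fun u => G u - m)
    have e2 : ∑ u ∈ Φ, (G u - m) = ∑ u ∈ Φ \ V, (G u - m) - ∑ u ∈ V \ Φ, (G u - m) := by
      rw [e1, hV, sub_zero]
    rw [e2]
    have e3 := abs_sub (∑ u ∈ Φ \ V, (G u - m)) (∑ u ∈ V \ Φ, (G u - m))
    have e4 := h2' (Φ \ V)
    have e5 := h2' (V \ Φ)
    have e6 : 2 * B * ((Φ \ V).card : ℝ) ≤ ε / 2 * (c * k ^ 2) := by
      have hBB : 2 * B ≤ 2 * (B + 1) := mul_le_mul_of_nonneg_left (le_add_of_nonneg_right zero_le_one) zero_le_two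
      calc 2 * B * ((Φ \ V).card : ℝ) ≤ 2 * (B + 1) * (ε * c / (4 * (B + 1)) * k ^ 2) :=
            mul_le_mul hBB h4 (Nat.cast_nonneg _) (by positivity)
        _ = ε / 2 * (c * k ^ 2) := by
            have hB1 : (B + 1) ≠ 0 := by positivity
            have e11 : ε * c / (4 * (B + 1)) = ε * c / 4 / (B + 1) := by rw [div_div]
            rw [e11]
            have e12 : 2 * (B + 1) * (ε * c / 4 / (B + 1) * k ^ 2) =
                2 * ((ε * c / 4) / (B + 1) * (B + 1)) * k ^ 2 := by ring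
            rw [e12, div_mul_cancel₀ _ hB1]
            ring
    have e7 : 2 * B * ((V \ Φ).card : ℝ) ≤ ε / 2 * (c * k ^ 2) := by
      have e8 : 4 * B ≤ k * (ε * c) := by
        rwa [div_le_iff₀ (by positivity)] at h3
      have e9 : k * (ε * c) ≤ k ^ 2 * (ε * c) := by
        have : k ≤ k ^ 2 := by nlinarith
        have hεc : 0 ≤ ε * c := by positivity
        exact mul_le_mul_of_nonneg_right this hεc
      calc 2 * B * ((V \ Φ).card : ℝ) ≤ 2 * B * 1 := by gcongr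
        _ ≤ ε / 2 * (c * k ^ 2) := by nlinarith
    have e10 : ε * (c * k ^ 2) ≤ ε * Φ.card := by gcongr
    linarith
  rw [← hΦ, avg_coe]
  have e1 : (∑ z ∈ Φ, G z) / (Φ.card : ℝ) - m = (∑ z ∈ Φ, (G z - m)) / (Φ.card : ℝ) := by
    rw [sum_sub_distrib, sum_const, nsmul_eq_mul]
    field_simp
  rw [e1, abs_div, abs_of_pos hcard0, div_le_iff₀ hcard0]
  exact hsum

/-- the function without the condition `h ≠ 0` -/
noncomputable def FF (f : Gi → ℝ) (S : Finset Gi) (μ : ℝ) (n : Gi) : ℝ :=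
  |(∑ u ∈ S, f (n + u)) / (S.card : ℝ) - μ|

/-- the function -/
noncomputable def FP (f : Gi → ℝ) (S : Finset Gi) (μ : ℝ) (n : Gi) : ℝ :=
  |avg {h | h ≠ 0 ∧ ∃ u ∈ (S : Set Gi), h = n + u} f - μ|

lemma abs_mean {f : Gi → ℝ} (hf : ∀ z, |f z| ≤ 1) (S : Finset Gi) (e : Gi → Gi) :
    |(∑ u ∈ S, f (e u)) / (S.card : ℝ)| ≤ 1 := by
  rw [abs_div, Nat.abs_cast]
  refine div_le_one_of_le₀ ?_ (Nat.cast_nonneg _)
  refine (abs_sum_le_sum_abs _ _).trans ?_
  refine (sum_le_sum fun u _ => hf (e u)).trans ?_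
  rw [sum_const, nsmul_eq_mul, mul_one]

lemma FP_eq {f : Gi → ℝ} {S : Finset Gi} {μ : ℝ} {n : Gi} (hn : -n ∉ S) : FP f S μ n = FF f S μ n := by
  classical
  unfold FP FF
  rw [sh_coe, avg_coe]
  have h0 : (0 : Gi) ∉ S.image (fun u => n + u) := by
    intro h
    obtain ⟨u, hu, h1⟩ := mem_image.1 h
    apply hn
    rw [neg_eq_of_add_eq_zero_right h1]
    exact hu
  have h1 : sh S n = S.image (fun u => n + u) := by
    unfold sh
    convert erase_eq_of_notMem h0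
  rw [h1, sum_image (fun u _ v _ h => add_left_cancel h),
    card_image_of_injective _ (add_right_injective n)]

lemma FP_FF {f : Gi → ℝ} (hf : ∀ z, |f z| ≤ 1) (S : Finset Gi) (μ : ℝ) (n : Gi) :
    |FP f S μ n - FF f S μ n| ≤ 2 := by
  unfold FP FF
  rw [sh_coe, avg_coe]
  refine (abs_abs_sub_abs_le_abs_sub _ _).trans ?_
  have h1 := abs_mean hf (sh S n) id
  have h2 := abs_mean hf S (fun u => n + u)
  simp only [id] at h1
  have h3 := abs_sub ((∑ z ∈ sh S n, f z) / ((sh S n).card : ℝ) - μ)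
    ((∑ u ∈ S, f (n + u)) / (S.card : ℝ) - μ)
  have h4 : (∑ z ∈ sh S n, f z) / ((sh S n).card : ℝ) - μ -
      ((∑ u ∈ S, f (n + u)) / (S.card : ℝ) - μ) =
      (∑ z ∈ sh S n, f z) / ((sh S n).card : ℝ) - (∑ u ∈ S, f (n + u)) / (S.card : ℝ) := by ring
  rw [h4]
  have h5 := abs_sub ((∑ z ∈ sh S n, f z) / ((sh S n).card : ℝ))
    ((∑ u ∈ S, f (n + u)) / (S.card : ℝ))
  linarith

lemma FF_sub (f g : Gi → ℝ) (S : Finset Gi) (μ : ℝ) (n : Gi) :
    |FF f S μ n - FF g S μ n| ≤ (∑ u ∈ S, |f (n + u) - g (n + u)|) / (S.card : ℝ) := by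
  unfold FF
  refine (abs_abs_sub_abs_le_abs_sub _ _).trans ?_
  have h4 : (∑ u ∈ S, f (n + u)) / (S.card : ℝ) - μ - ((∑ u ∈ S, g (n + u)) / (S.card : ℝ) - μ) =
      (∑ u ∈ S, (f (n + u) - g (n + u))) / (S.card : ℝ) := by
    rw [sum_sub_distrib]
    ring
  rw [h4, abs_div, Nat.abs_cast]
  gcongr
  exact abs_sum_le_sum_abs _ _

lemma FF_le {f : Gi → ℝ} (hf : ∀ z, |f z| ≤ 1) (S : Finset Gi) (μ : ℝ) (n : Gi) :
    |FF f S μ n| ≤ 1 + |μ| := by
  unfold FF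
  rw [abs_abs]
  have h1 := abs_sub ((∑ u ∈ S, f (n + u)) / (S.card : ℝ)) μ
  have h2 := abs_mean hf S (fun u => n + u)
  linarith

lemma FP_le {f : Gi → ℝ} (hf : ∀ z, |f z| ≤ 1) (S : Finset Gi) (μ : ℝ) (n : Gi) :
    |FP f S μ n| ≤ 3 + |μ| := by
  have h1 := FP_FF hf S μ n
  have h2 := FF_le hf S μ n
  have h3 : FP f S μ n = (FP f S μ n - FF f S μ n) + FF f S μ n := by ring
  rw [h3]
  refine (abs_add_le _ _).trans ?_
  linarith

lemma sum_FF (f g : Gi → ℝ) (S Φ Ψ : Finset Gi) (μ : ℝ) (h : ∀ n ∈ Φ, ∀ u ∈ S, n + u ∈ Ψ) :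
    ∑ n ∈ Φ, |FF f S μ n - FF g S μ n| ≤ ∑ z ∈ Ψ, |f z - g z| := by
  classical
  have h0 : (0 : ℝ) ≤ ∑ z ∈ Ψ, |f z - g z| := sum_nonneg fun _ _ => abs_nonneg _
  refine (sum_le_sum fun n _ => FF_sub f g S μ n).trans ?_
  rw [← sum_div, sum_comm]
  refine div_le_of_le_mul₀ (Nat.cast_nonneg _) h0 ?_
  calc ∑ u ∈ S, ∑ n ∈ Φ, |f (n + u) - g (n + u)| ≤ ∑ _u ∈ S, ∑ z ∈ Ψ, |f z - g z| := by
        refine sum_le_sum fun u hu => ?_
        rw [← sum_image (s := Φ) (g := fun n => n + u) (f := fun z => |f z - g z|)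
          (fun u _ v _ h => add_right_cancel h)]
        apply sum_le_sum_of_subset_of_nonneg
        · intro z hz
          obtain ⟨n, hn, rfl⟩ := mem_image.1 hz
          exact h n hn u hu
        · intros
          exact abs_nonneg _
    _ = (∑ z ∈ Ψ, |f z - g z|) * (S.card : ℝ) := by
        rw [sum_const, nsmul_eq_mul, mul_comm]

/-- the averages are close to a number -/
theorem est {f : Gi → ℝ} (hf : ∀ z, |f z| ≤ 1) (hb : Bes f) (S : Finset Gi) (μ : ℝ)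
    {U : Set (ℝ × ℝ)} (hU : JM U) {ε : ℝ} (hε : 0 < ε) :
    ∃ P k₀ : ℝ, ∀ k : ℝ, k₀ ≤ k → 0 < k → |avg (dil U k) (FP f S μ) - P| ≤ ε := by
  classical
  obtain ⟨C, hC1, hC⟩ := exists_bd hU.bdd
  obtain ⟨c, hc, k₀, hcard⟩ := dil_card hU
  obtain ⟨M, g, hM, hper, hg, R₀, hR₀⟩ := hb (ε * c / (3 * (C + 1) ^ 2)) (by positivity)
  have hP : Per M (FF g S μ) := by
    intro z w
    unfold FF
    congr 3
    apply sum_congr rfl
    intro u _
    rw [add_right_comm]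
    exact hper _ _
  obtain ⟨k₁, hk₁⟩ := per_avg hU hM hP (FF_le hg S μ) (ε := ε / 3) (by linarith)
  let D : ℕ := S.sup fun τ => τ.re.natAbs + τ.im.natAbs
  have hD : ∀ τ ∈ S, |τ.re| ≤ D ∧ |τ.im| ≤ D := by
    intro τ hτ
    have h1 : τ.re.natAbs + τ.im.natAbs ≤ D :=
      Finset.le_sup (f := fun τ : Gi => τ.re.natAbs + τ.im.natAbs) hτ
    rw [Int.abs_eq_natAbs, Int.abs_eq_natAbs]
    exact ⟨Int.ofNat_le.2 ((Nat.le_add_right _ _).trans h1),
      Int.ofNat_le.2 ((Nat.le_add_left _ _).trans h1)⟩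
  refine ⟨(∑ u ∈ sq 0 M, FF g S μ u) / (M : ℝ) ^ 2,
    max (max k₀ k₁) (max (max (R₀ : ℝ) ((D : ℝ) + 1)) (6 * (S.card : ℝ) / (ε * c) + 1)),
    fun k hk hk0 => ?_⟩
  rw [max_le_iff, max_le_iff, max_le_iff, max_le_iff] at hk
  obtain ⟨⟨h0, h1⟩, ⟨h2, h3⟩, h4⟩ := hk
  have hper1 := hk₁ k h1 hk0
  let Φ : Finset Gi := (dil_finite hU.bdd hk0).toFinset
  have hΦ : (Φ : Set Gi) = dil U k := Set.Finite.coe_toFinset _
  have hΦ' : ∀ u, u ∈ Φ ↔ u ∈ dil U k := fun u => by rw [← mem_coe, hΦ]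
  have hcΦ := hcard k h0 hk0 Φ hΦ
  have hk1 : 1 ≤ k := by
    have : (0 : ℝ) ≤ D := Nat.cast_nonneg D
    linarith
  have hk2 : 0 < c * k ^ 2 := by positivity
  have hcard0 : (0 : ℝ) < Φ.card := lt_of_lt_of_le hk2 hcΦ
  set R : ℕ := ⌈C * k⌉₊ + D with hR
  have hRR : (R₀ : ℝ) ≤ (R : ℝ) := by
    have h1 := Nat.le_ceil (C * k)
    have h2 : k ≤ C * k := by nlinarith
    rw [hR]
    push_cast
    have h3 : (0 : ℝ) ≤ D := Nat.cast_nonneg D
    linarith
  have hRle : (R : ℝ) ≤ (C + 1) * k := by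
    have h1 := Nat.ceil_lt_add_one (by positivity : (0 : ℝ) ≤ C * k)
    rw [hR]
    push_cast
    linarith
  have hsumR := hR₀ R (by exact_mod_cast hRR)
  -- first difference
  have e1 : |∑ n ∈ Φ, FP f S μ n - ∑ n ∈ Φ, FF f S μ n| ≤ 2 * S.card := by
    rw [← sum_sub_distrib]
    refine (abs_sum_le_sum_abs _ _).trans ?_
    have h5 : ∑ n ∈ Φ, |FP f S μ n - FF f S μ n| =
        ∑ n ∈ Φ.filter (fun n => -n ∈ S), |FP f S μ n - FF f S μ n| := by
      symm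
      apply sum_subset (filter_subset _ _)
      intro n hn hn'
      have : -n ∉ S := fun h => hn' (mem_filter.2 ⟨hn, h⟩)
      rw [FP_eq this, sub_self, abs_zero]
    rw [h5]
    refine (sum_le_sum fun n _ => FP_FF hf S μ n).trans ?_
    rw [sum_const, nsmul_eq_mul, mul_comm]
    have h6 : (Φ.filter (fun n => -n ∈ S)).card ≤ S.card := by
      refine card_le_card_of_injOn (fun n => -n) ?_ ?_
      · intro n hn
        exact (mem_filter.1 (mem_coe.1 hn)).2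
      · intro a _ b _ hab
        exact neg_injective hab
    have h7 : ((Φ.filter (fun n => -n ∈ S)).card : ℝ) ≤ S.card := by exact_mod_cast h6
    exact mul_le_mul_of_nonneg_left h7 zero_le_two
  -- second difference
  have e2 : |∑ n ∈ Φ, FF f S μ n - ∑ n ∈ Φ, FF g S μ n| ≤ ε / 3 * (c * k ^ 2) := by
    rw [← sum_sub_distrib]
    refine (abs_sum_le_sum_abs _ _).trans ?_
    refine (sum_FF f g S Φ (bx2 R) μ ?_).trans ?_
    · intro n hn u hu
      rw [hΦ'] at hn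
      obtain ⟨h1, h2⟩ := dil_bx hC hk0 hn
      obtain ⟨h3, h4⟩ := hD u hu
      rw [abs_le] at h1 h2 h3 h4
      rw [mem_bx2, QuadraticAlgebra.re_add, QuadraticAlgebra.im_add, hR]
      push_cast
      omega
    · refine hsumR.trans ?_
      calc ε * c / (3 * (C + 1) ^ 2) * (R : ℝ) ^ 2 ≤
          ε * c / (3 * (C + 1) ^ 2) * ((C + 1) * k) ^ 2 := by gcongr
        _ = ε / 3 * (c * k ^ 2) := by
            field_simp
  rw [← hΦ, avg_coe] at hper1 ⊢
  set P := (∑ u ∈ sq 0 M, FF g S μ u) / (M : ℝ) ^ 2 with hPd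
  have e3 : 2 * (S.card : ℝ) ≤ ε / 3 * (c * k ^ 2) := by
    have h5 : 6 * S.card / (ε * c) ≤ k := by linarith
    rw [div_le_iff₀ (by positivity)] at h5
    have h6 : k * (ε * c) ≤ k ^ 2 * (ε * c) := by
      have : k ≤ k ^ 2 := by nlinarith
      have hεc : 0 ≤ ε * c := by positivity
      exact mul_le_mul_of_nonneg_right this hεc
    nlinarith
  have e4 : |(∑ z ∈ Φ, FP f S μ z) / (Φ.card : ℝ) - (∑ z ∈ Φ, FF g S μ z) / (Φ.card : ℝ)| ≤
      2 * (ε / 3) := by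
    rw [← sub_div, abs_div, abs_of_pos hcard0, div_le_iff₀ hcard0]
    have h5 : ∑ z ∈ Φ, FP f S μ z - ∑ z ∈ Φ, FF g S μ z =
        (∑ n ∈ Φ, FP f S μ n - ∑ n ∈ Φ, FF f S μ n) +
          (∑ n ∈ Φ, FF f S μ n - ∑ n ∈ Φ, FF g S μ n) := by ring
    rw [h5]
    refine (abs_add_le _ _).trans ?_
    have h6 : ε / 3 * (c * k ^ 2) ≤ ε / 3 * Φ.card := by gcongr
    linarith
  have h5 : (∑ z ∈ Φ, FP f S μ z) / (Φ.card : ℝ) - P =
      ((∑ z ∈ Φ, FP f S μ z) / (Φ.card : ℝ) - (∑ z ∈ Φ, FF g S μ z) / (Φ.card : ℝ)) +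
        ((∑ z ∈ Φ, FF g S μ z) / (Φ.card : ℝ) - P) := by ring
  rw [h5]
  refine (abs_add_le _ _).trans ?_
  linarith

lemma conv {a : ℕ → ℝ} (h : ∀ ε : ℝ, 0 < ε → ∃ P : ℝ, ∀ᶠ N in atTop, |a N - P| ≤ ε) :
    ∃ ℓ : ℝ, Tendsto a atTop (nhds ℓ) := by
  apply cauchySeq_tendsto_of_complete
  rw [Metric.cauchySeq_iff']
  intro ε hε
  obtain ⟨P, hP⟩ := h (ε / 3) (by linarith)
  obtain ⟨N, hN⟩ := eventually_atTop.1 hP
  refine ⟨N, fun n hn => ?_⟩
  have h1 := hN n hn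
  have h2 := hN N le_rfl
  rw [Real.dist_eq]
  rw [abs_le] at h1 h2
  rw [abs_lt]
  constructor <;> linarith

/-- the square -/
def UU : Set (ℝ × ℝ) := Set.Icc (-1) 1 ×ˢ Set.Icc (-1) 1

lemma jmU : JM UU := by
  refine ⟨?_, ?_, ?_⟩
  · exact (isCompact_Icc.prod isCompact_Icc).isBounded
  · exact ((convex_Icc _ _).prod (convex_Icc _ _)).addHaar_frontier volume
  · unfold UU
    rw [Measure.volume_eq_prod, Measure.prod_prod, Real.volume_Icc]
    have : (0 : ENNReal) < ENNReal.ofReal (1 - -1) := by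
      rw [ENNReal.ofReal_pos]
      norm_num
    exact ENNReal.mul_pos this.ne' this.ne'

lemma dil_UU (N : ℕ) : dil UU ((N : ℝ) + 1) = ((bx2 (N + 1)).erase 0 : Finset Gi) := by
  classical
  have hk : (0 : ℝ) < (N : ℝ) + 1 := by positivity
  ext u
  rw [mem_dil hk, mem_coe, mem_erase, mem_bx2]
  refine and_congr_right fun _ => ?_
  unfold UU
  rw [Set.mem_prod, Set.mem_Icc, Set.mem_Icc]
  simp only
  rw [le_div_iff₀ hk, div_le_iff₀ hk, le_div_iff₀ hk, div_le_iff₀ hk]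
  have e : ∀ a : ℤ, (-1 * ((N : ℝ) + 1) ≤ (a : ℝ) ↔ -((N + 1 : ℕ) : ℤ) ≤ a) ∧
      ((a : ℝ) ≤ 1 * ((N : ℝ) + 1) ↔ a ≤ ((N + 1 : ℕ) : ℤ)) := by
    intro a
    constructor
    · rw [← Int.cast_le (R := ℝ)]
      push_cast
      constructor <;> intro h <;> linarith
    · rw [← Int.cast_le (R := ℝ)]
      push_cast
      constructor <;> intro h <;> linarith
  rw [(e u.re).1, (e u.re).2, (e u.im).1, (e u.im).2]

/-- **LIMB** -/
theorem limb : S_LIMB := by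
  classical
  intro f hf hb S μ
  have hA : ∀ (U : Set (ℝ × ℝ)) (k : ℕ → ℝ), JM U → (∀ N, 0 < k N) → Tendsto k atTop atTop →
      ∃ ℓ : ℝ, Tendsto (fun N : ℕ => avg (dil U (k N)) (FP f S μ)) atTop (nhds ℓ) := by
    intro U k hU hk hkt
    apply conv
    intro ε hε
    obtain ⟨P, k₀, h⟩ := est hf hb S μ hU hε
    refine ⟨P, ?_⟩
    filter_upwards [hkt.eventually_ge_atTop k₀] with N hN
    exact h _ hN (hk N)
  refine ⟨hA, ?_⟩
  obtain ⟨ℓ, hℓ⟩ := hA UU (fun N => (N : ℝ) + 1) jmU (fun N => by positivity)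
    (tendsto_atTop_add_const_right _ _ tendsto_natCast_atTop_atTop)
  refine ⟨ℓ, ?_⟩
  change Tendsto (fun N : ℕ => avg (bx2 N : Set Gi) (FP f S μ)) atTop (nhds ℓ)
  rw [← tendsto_add_atTop_iff_nat 1]
  have hdiff : Tendsto (fun N : ℕ => avg (bx2 (N + 1) : Set Gi) (FP f S μ) -
      avg (dil UU ((N : ℝ) + 1)) (FP f S μ)) atTop (nhds 0) := by
    have h0 : Tendsto (fun N : ℕ => 2 * (3 + |μ|) / (N : ℝ)) atTop (nhds 0) :=
      tendsto_const_div_atTop_nhds_zero_nat _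
    refine squeeze_zero_norm' ?_ h0
    filter_upwards [eventually_ge_atTop 1] with N hN
    rw [dil_UU, avg_coe, avg_coe, Real.norm_eq_abs]
    have h1 : (0 : Gi) ∈ bx2 (N + 1) := by
      rw [mem_bx2]
      simp only [QuadraticAlgebra.re_zero, QuadraticAlgebra.im_zero]
      omega
    have h2 : ∑ z ∈ bx2 (N + 1), FP f S μ z =
        FP f S μ 0 + ∑ z ∈ (bx2 (N + 1)).erase 0, FP f S μ z :=
      (add_sum_erase _ _ h1).symm
    have h3 : ((bx2 (N + 1)).card : ℝ) = ((bx2 (N + 1)).erase 0).card + 1 := by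
      rw [← card_erase_add_one h1]
      push_cast
      rfl
    have h4 : (N : ℝ) ≤ ((bx2 (N + 1)).erase 0).card := by
      have : ((bx2 (N + 1)).card : ℝ) = (2 * (N + 1) + 1) ^ 2 := by
        rw [card_bx2]
        push_cast
        ring
      have hN0 : (0 : ℝ) ≤ N := Nat.cast_nonneg N
      nlinarith
    have hN1 : (1 : ℝ) ≤ N := by exact_mod_cast hN
    rw [h2, h3]
    set m : ℝ := (((bx2 (N + 1)).erase 0).card : ℝ) with hm
    set s : ℝ := ∑ z ∈ (bx2 (N + 1)).erase 0, FP f S μ z with hs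
    have hm0 : 0 < m := by linarith
    have h5 : |s| ≤ (3 + |μ|) * m := by
      rw [hs, hm]
      refine (abs_sum_le_sum_abs _ _).trans ?_
      refine (sum_le_sum fun n _ => FP_le hf S μ n).trans ?_
      rw [sum_const, nsmul_eq_mul, mul_comm]
    have h6 := FP_le hf S μ 0
    have h7 : (FP f S μ 0 + s) / (m + 1) - s / m = (m * FP f S μ 0 - s) / (m * (m + 1)) := by
      field_simp
      ring
    rw [h7, abs_div, abs_of_pos (by positivity : (0 : ℝ) < m * (m + 1))]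
    have h8 : |m * FP f S μ 0 - s| ≤ 2 * (3 + |μ|) * m := by
      refine (abs_sub _ _).trans ?_
      rw [abs_mul, abs_of_pos hm0]
      nlinarith
    rw [div_le_div_iff₀ (by positivity) (by linarith)]
    have h9 : 0 ≤ 2 * (3 + |μ|) := by positivity
    calc |m * FP f S μ 0 - s| * N ≤ (2 * (3 + |μ|) * m) * (m + 1) := by
          gcongr
          linarith
      _ = 2 * (3 + |μ|) * (m * (m + 1)) := by ring
  have h := hdiff.add hℓ
  rw [zero_add] at h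
  refine h.congr fun N => ?_
  ring

end Pool.Agent.N891.MS
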